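import Pool.Agent.H83.VU.TargetsH

/-!
Row GP3: the mean value of `p ^ (i u)`.
-/

set_option autoImplicit false

open Finset Pool.Agent.H83.VU

namespace Pool.Agent.H48.VU

theorem sum_id (s : Finset ℕ) (w : ℕ → ℝ) (f : ℕ → ℂ) (z : ℂ) (hf : ∀ p, ‖f p‖ = 1)
    (hz : ‖z‖ = 1) :
    ∑ p ∈ s, w p * ‖f p - z‖ ^ 2 = 2 * ∑ p ∈ s, w p -
      2 * ((∑ p ∈ s, (w p : ℂ) * f p) * (starRingEnd ℂ) z).re := by
  have h1 : ∀ p ∈ s, w p * ‖f p - z‖ ^ 2 =
      2 * w p - 2 * ((w p : ℂ) * f p * (starRingEnd ℂ) z).re := by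
    intro p _
    have h2 : ‖f p - z‖ ^ 2 = 2 - 2 * (f p * (starRingEnd ℂ) z).re := by
      rw [Complex.sq_norm, Complex.normSq_sub, ← Complex.sq_norm, ← Complex.sq_norm, hf, hz]
      ring
    rw [h2, mul_assoc, Complex.re_ofReal_mul]
    ring
  rw [Finset.sum_congr rfl h1, Finset.sum_sub_distrib, ← Finset.mul_sum, ← Finset.mul_sum,
    ← Complex.re_sum, Finset.sum_mul]

theorem pf_GP3 (hGP2 : T_GP2) (hMET : T_MET) : T_GP3 := by
  obtain ⟨R₀, h2⟩ := hGP2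
  obtain ⟨C, hC, hM⟩ := hMET
  refine ⟨max R₀ 1, fun R hR => ?_⟩
  have hR0 : R₀ ≤ R := (le_max_left _ _).trans hR
  have hR1 : 1 ≤ R := (le_max_right _ _).trans hR
  obtain ⟨c₂, X₀, hc₂, hX⟩ := h2 R hR0
  have hRpos : (0 : ℝ) < R := by exact_mod_cast hR1
  have hCR : 0 < C * R := mul_pos hC hRpos
  refine ⟨min (c₂ / (2 * (C * R))) 1, max X₀ (Real.exp 1), lt_min (by positivity) one_pos,
    fun X P u hX₀ hP hu1 hu2 => ?_⟩
  set c : ℝ := min (c₂ / (2 * (C * R))) 1 with hc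
  have hXX : X₀ ≤ X := (le_max_left _ _).trans hX₀
  have hXe : Real.exp 1 ≤ X := (le_max_right _ _).trans hX₀
  have hX0 : 0 < X := (Real.exp_pos 1).trans_le hXe
  have hlog : 1 ≤ Real.log X := by
    rw [Real.le_log_iff_exp_le hX0]
    exact hXe
  have hP2 : 2 ≤ P := by
    have h3 : (1 : ℝ) ≤ Real.log X ^ (19 / 20 : ℝ) := Real.one_le_rpow hlog (by norm_num)
    have h4 : Real.exp 1 ≤ P := (Real.exp_le_exp.mpr h3).trans hP
    have h5 := Real.add_one_le_exp (1 : ℝ)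
    linarith only [h4, h5]
  set W : ℝ := ∑ p ∈ PQ P (P ^ R), 1 / (p : ℝ) with hW
  have hW0 : 0 ≤ W := Finset.sum_nonneg fun p _ => by positivity
  have hWC : W ≤ C * R := (hM P R hP2 hR1).1
  set S : ℂ := ∑ p ∈ PQ P (P ^ R), ((1 / (p : ℝ) : ℝ) : ℂ) * ni u p with hS
  have hc1 : c ≤ 1 := min_le_right _ _
  have hc2 : c ≤ c₂ / (2 * (C * R)) := min_le_left _ _
  by_cases hS0 : S = 0
  · rw [hS0, norm_zero]
    exact mul_nonneg (by linarith only [hc1]) hW0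
  · have hn : 0 < ‖S‖ := norm_pos_iff.mpr hS0
    set z : ℂ := S / (‖S‖ : ℂ) with hz
    have hz1 : ‖z‖ = 1 := by
      rw [hz, norm_div, Complex.norm_real, norm_norm, div_self hn.ne']
    have h3 := hX X P u hXX hP hu1 hu2 z hz1
    rw [sum_id (PQ P (P ^ R)) (fun p => 1 / (p : ℝ)) (ni u) z (fun p => norm_ni u p) hz1] at h3
    have h4 : (S * (starRingEnd ℂ) z).re = ‖S‖ := by
      rw [hz, map_div₀, Complex.conj_ofReal, ← mul_div_assoc, Complex.mul_conj, ← Complex.sq_norm]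
      have h5 : (((‖S‖ ^ 2 : ℝ) : ℂ) / (‖S‖ : ℂ)) = ((‖S‖ : ℝ) : ℂ) := by
        rw [← Complex.ofReal_div]
        congr 1
        field_simp
      rw [h5, Complex.ofReal_re]
    have h5 : c₂ ≤ 2 * W - 2 * ‖S‖ := by
      rw [← h4]
      exact h3
    have h6 : c * W ≤ c₂ / 2 := by
      calc c * W ≤ c₂ / (2 * (C * R)) * W := mul_le_mul_of_nonneg_right hc2 hW0
        _ ≤ c₂ / (2 * (C * R)) * (C * R) := by
            refine mul_le_mul_of_nonneg_left hWC ?_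
            positivity
        _ = c₂ / 2 := by field_simp
    nlinarith only [h5, h6]

end Pool.Agent.H48.VU
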