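import Pool.Agent.H83.VU.TargetsH

/-!
Row MB: prime numbers between two powers.
-/

set_option autoImplicit false

open Finset Pool.Agent.H83.VU

namespace Pool.Agent.H48.VU

open Filter in
theorem small_terms : ∀ᶠ x : ℝ in atTop,
    Real.log 2 + Real.log (3 * x + 2) + 2 * Real.sqrt (3 * x) * Real.log (3 * x) ≤
      15 / 100 * x + 1 := by
  have h1 : ∀ᶠ u : ℝ in atTop, Real.log u ≤ 1 / 100 * u := by
    have h := Real.isLittleO_log_id_atTop.def (show (0 : ℝ) < 1 / 100 by norm_num)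
    filter_upwards [h, eventually_ge_atTop (1 : ℝ)] with u hu hu1
    have h2 : ‖(id u : ℝ)‖ = u := by
      rw [id, Real.norm_eq_abs, abs_of_nonneg (by linarith)]
    rw [h2] at hu
    exact (le_abs_self _).trans hu
  have h3 : Tendsto (fun x : ℝ => 3 * x) atTop atTop :=
    tendsto_id.const_mul_atTop (by norm_num)
  have h4 : Tendsto (fun x : ℝ => 3 * x + 2) atTop atTop := tendsto_atTop_add_const_right _ _ h3
  have h5 : Tendsto (fun x : ℝ => Real.sqrt (3 * x)) atTop atTop := Real.tendsto_sqrt_atTop.comp h3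
  filter_upwards [h4.eventually h1, h5.eventually h1, eventually_ge_atTop (1 : ℝ)] with x h6 h7 h8
  have h9 : Real.log (3 * x) = 2 * Real.log (Real.sqrt (3 * x)) := by
    rw [Real.log_sqrt (by linarith)]
    ring
  have h10 : Real.sqrt (3 * x) * Real.sqrt (3 * x) = 3 * x := Real.mul_self_sqrt (by linarith)
  have h11 : Real.log 2 ≤ 7 / 10 := by
    have := Real.log_two_lt_d9
    linarith
  have h12 : 0 ≤ Real.sqrt (3 * x) := Real.sqrt_nonneg _
  rw [h9]
  have h13 : 2 * Real.sqrt (3 * x) * (2 * Real.log (Real.sqrt (3 * x))) ≤ 4 / 100 * (3 * x) := by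
    have h14 := mul_le_mul_of_nonneg_left h7 h12
    nlinarith only [h14, h10]
  linarith only [h13, h6, h11]

theorem theta_diff (x y : ℝ) (hxy : x ≤ y) :
    Chebyshev.theta y - Chebyshev.theta x = ∑ p ∈ PQ x y, Real.log p := by
  unfold Chebyshev.theta PQ
  have h : (Ioc 0 ⌊y⌋₊).filter Nat.Prime =
      (Ioc 0 ⌊x⌋₊).filter Nat.Prime ∪ (Ioc ⌊x⌋₊ ⌊y⌋₊).filter Nat.Prime := by
    rw [← Finset.filter_union, Finset.Ioc_union_Ioc_eq_Ioc (Nat.zero_le _) (Nat.floor_mono hxy)]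
  have hd : Disjoint ((Ioc 0 ⌊x⌋₊).filter Nat.Prime) ((Ioc ⌊x⌋₊ ⌊y⌋₊).filter Nat.Prime) := by
    rw [Finset.disjoint_left]
    intro p h1 h2
    have h3 := (Finset.mem_Ioc.mp (Finset.mem_filter.mp h1).1).2
    have h4 := (Finset.mem_Ioc.mp (Finset.mem_filter.mp h2).1).1
    omega
  rw [h, Finset.sum_union hd]
  ring

theorem block : ∃ x₀ : ℝ, 1 ≤ x₀ ∧ ∀ x : ℝ, x₀ ≤ x →
    1 / (6 * Real.log (3 * x)) ≤ ∑ p ∈ PQ x (3 * x), 1 / (p : ℝ) := by
  obtain ⟨x₁, hx₁⟩ := Filter.eventually_atTop.mp small_terms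
  refine ⟨max x₁ 100, le_trans (by norm_num) (le_max_right _ _), fun x hx => ?_⟩
  have hx1 : x₁ ≤ x := (le_max_left _ _).trans hx
  have hx100 : 100 ≤ x := (le_max_right _ _).trans hx
  have h1 := hx₁ x hx1
  have h2 := Chebyshev.theta_ge' (x := 3 * x) (by linarith)
  have h3 := Chebyshev.theta_le_log4_mul_x (x := x) (by linarith)
  have h4 := theta_diff x (3 * x) (by linarith)
  have hlog4 : Real.log 4 = 2 * Real.log 2 := by
    rw [show (4 : ℝ) = 2 ^ 2 by norm_num, Real.log_pow]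
    norm_num
  have hlog2 := Real.log_two_gt_d9
  rw [hlog4] at h3
  have h5 : x / 2 ≤ ∑ p ∈ PQ x (3 * x), Real.log p := by
    rw [← h4]
    nlinarith only [h1, h2, h3, hlog2, hx100]
  have hL : 0 < Real.log (3 * x) := Real.log_pos (by linarith)
  have h6 : ∑ p ∈ PQ x (3 * x), Real.log p ≤
      3 * x * Real.log (3 * x) * ∑ p ∈ PQ x (3 * x), 1 / (p : ℝ) := by
    rw [Finset.mul_sum]
    refine Finset.sum_le_sum fun p hp => ?_
    obtain ⟨hp1, hp2⟩ := Finset.mem_filter.mp hp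
    have hp3 := (Finset.mem_Ioc.mp hp1).2
    have hp4 : (p : ℝ) ≤ 3 * x := by
      have := Nat.floor_le (show (0 : ℝ) ≤ 3 * x by linarith)
      exact le_trans (by exact_mod_cast hp3) this
    have hp5 : (0 : ℝ) < p := by exact_mod_cast hp2.pos
    have h7 : Real.log p ≤ Real.log (3 * x) := Real.log_le_log hp5 hp4
    have h8 : 1 ≤ 3 * x * (1 / (p : ℝ)) := by
      rw [mul_one_div, le_div_iff₀ hp5]
      linarith
    calc Real.log p ≤ Real.log (3 * x) := h7
      _ = Real.log (3 * x) * 1 := (mul_one _).symm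
      _ ≤ Real.log (3 * x) * (3 * x * (1 / (p : ℝ))) := mul_le_mul_of_nonneg_left h8 hL.le
      _ = _ := by ring
  rw [div_le_iff₀ (by positivity)]
  have h9 := h5.trans h6
  have h10 : x / 2 = x * (1 / 2) := by ring
  have h11 : 1 / 2 ≤ 3 * Real.log (3 * x) * ∑ p ∈ PQ x (3 * x), 1 / (p : ℝ) := by
    refine le_of_mul_le_mul_left ?_ (show (0 : ℝ) < x by linarith)
    calc x * (1 / 2) ≤ 3 * x * Real.log (3 * x) * ∑ p ∈ PQ x (3 * x), 1 / (p : ℝ) := by
          rw [← h10]; exact h9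
      _ = _ := by ring
  linarith only [h11]

theorem PQ_split (x y z : ℝ) (hxy : x ≤ y) (hyz : y ≤ z) :
    ∑ p ∈ PQ x z, 1 / (p : ℝ) = ∑ p ∈ PQ x y, 1 / (p : ℝ) + ∑ p ∈ PQ y z, 1 / (p : ℝ) := by
  unfold PQ
  have h : (Ioc ⌊x⌋₊ ⌊z⌋₊).filter Nat.Prime =
      (Ioc ⌊x⌋₊ ⌊y⌋₊).filter Nat.Prime ∪ (Ioc ⌊y⌋₊ ⌊z⌋₊).filter Nat.Prime := by
    rw [← Finset.filter_union,
      Finset.Ioc_union_Ioc_eq_Ioc (Nat.floor_mono hxy) (Nat.floor_mono hyz)]
  have hd : Disjoint ((Ioc ⌊x⌋₊ ⌊y⌋₊).filter Nat.Prime) ((Ioc ⌊y⌋₊ ⌊z⌋₊).filter Nat.Prime) := by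
    rw [Finset.disjoint_left]
    intro p h1 h2
    have h3 := (Finset.mem_Ioc.mp (Finset.mem_filter.mp h1).1).2
    have h4 := (Finset.mem_Ioc.mp (Finset.mem_filter.mp h2).1).1
    omega
  rw [h, Finset.sum_union hd]

theorem blocks (x₀ : ℝ) (hx₀ : 1 ≤ x₀)
    (hb : ∀ x : ℝ, x₀ ≤ x → 1 / (6 * Real.log (3 * x)) ≤ ∑ p ∈ PQ x (3 * x), 1 / (p : ℝ))
    (x : ℝ) (hx : x₀ ≤ x) (L : ℝ) (m : ℕ) (hL : Real.log (3 ^ m * x) ≤ L) (_hL0 : 0 < L) :
    (m : ℝ) / (6 * L) ≤ ∑ p ∈ PQ x (3 ^ m * x), 1 / (p : ℝ) := by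
  induction m with
  | zero =>
    simp only [Nat.cast_zero, zero_div]
    exact Finset.sum_nonneg fun p _ => by positivity
  | succ m ih =>
    have hxp : 0 < x := by linarith
    have h3 : (1 : ℝ) ≤ 3 ^ m := one_le_pow₀ (by norm_num)
    have h4 : x ≤ 3 ^ m * x := by nlinarith only [h3, hxp]
    have h5 : (3 : ℝ) ^ (m + 1) * x = 3 * (3 ^ m * x) := by ring
    have h6 : 3 ^ m * x ≤ 3 * (3 ^ m * x) := by nlinarith only [h4, hxp]
    have h7 : Real.log (3 ^ m * x) ≤ L := by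
      refine le_trans (Real.log_le_log (by positivity) ?_) hL
      rw [h5]
      exact h6
    have h8 := ih h7
    rw [h5] at hL ⊢
    rw [PQ_split x (3 ^ m * x) (3 * (3 ^ m * x)) h4 h6]
    have h9 := hb (3 ^ m * x) (hx.trans h4)
    have h10 : 0 < Real.log (3 * (3 ^ m * x)) := by
      refine Real.log_pos ?_
      nlinarith only [h4, hx, hx₀]
    have h11 : 1 / (6 * L) ≤ 1 / (6 * Real.log (3 * (3 ^ m * x))) :=
      one_div_le_one_div_of_le (by positivity) (by linarith only [hL])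
    have h12 : ((m + 1 : ℕ) : ℝ) / (6 * L) = (m : ℝ) / (6 * L) + 1 / (6 * L) := by
      push_cast
      rw [add_div]
    rw [h12]
    linarith only [h8, h9, h11]

theorem pf_MB : T_MB := by
  intro a b ha hab
  obtain ⟨x₀, hx₀, hb⟩ := block
  have hb0 : 0 < b := ha.trans hab
  have hba : 0 < b - a := sub_pos.mpr hab
  refine ⟨(b - a) / (12 * b), max (max (Real.exp 1) (x₀ ^ (1 / a)))
    (Real.exp (5 / (b - a))), by positivity, fun y hy => ?_⟩
  have hye : Real.exp 1 ≤ y := ((le_max_left _ _).trans (le_max_left _ _)).trans hy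
  have hyx : x₀ ^ (1 / a) ≤ y := ((le_max_right _ _).trans (le_max_left _ _)).trans hy
  have hyl : Real.exp (5 / (b - a)) ≤ y := (le_max_right _ _).trans hy
  have hy0 : 0 < y := (Real.exp_pos 1).trans_le hye
  have hly : 1 ≤ Real.log y := (Real.le_log_iff_exp_le hy0).mpr hye
  have hly5 : 5 / (b - a) ≤ Real.log y := (Real.le_log_iff_exp_le hy0).mpr hyl
  have h5 : 5 ≤ (b - a) * Real.log y := by
    rw [div_le_iff₀ hba] at hly5
    linarith only [hly5]
  have hx : x₀ ≤ y ^ a := by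
    have h1 : (x₀ ^ (1 / a)) ^ a ≤ y ^ a :=
      Real.rpow_le_rpow (Real.rpow_nonneg (by linarith) _) hyx ha.le
    rwa [← Real.rpow_mul (by linarith), one_div_mul_cancel ha.ne', Real.rpow_one] at h1
  have hya : 0 < y ^ a := Real.rpow_pos_of_pos hy0 a
  have hl3 : 0 < Real.log 3 := Real.log_pos (by norm_num)
  have hl3' : Real.log 3 ≤ 14 / 10 := by
    have h1 : Real.log 3 ≤ Real.log 4 := Real.log_le_log (by norm_num) (by norm_num)
    have hlog4 : Real.log 4 = 2 * Real.log 2 := by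
      rw [show (4 : ℝ) = 2 ^ 2 by norm_num, Real.log_pow]
      norm_num
    have h2 := Real.log_two_lt_d9
    linarith only [h1, hlog4, h2]
  set m : ℕ := ⌊(b - a) * Real.log y / Real.log 3⌋₊ with hm
  have hm1 : (m : ℝ) * Real.log 3 ≤ (b - a) * Real.log y := by
    have h1 : (m : ℝ) ≤ (b - a) * Real.log y / Real.log 3 := Nat.floor_le (by positivity)
    rwa [le_div_iff₀ hl3] at h1
  have hm2 : (b - a) * Real.log y / 2 ≤ (m : ℝ) := by
    have h1 : (b - a) * Real.log y / Real.log 3 < m + 1 := Nat.lt_floor_add_one _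
    have h2 : (b - a) * Real.log y / (14 / 10) ≤ (b - a) * Real.log y / Real.log 3 :=
      div_le_div_of_nonneg_left (by positivity) hl3 hl3'
    linarith only [h1, h2, h5]
  have hlm : Real.log (3 ^ m * y ^ a) ≤ b * Real.log y := by
    rw [Real.log_mul (by positivity) hya.ne', Real.log_pow, Real.log_rpow hy0]
    linarith only [hm1]
  have hle : 3 ^ m * y ^ a ≤ y ^ b := by
    rw [← Real.log_le_log_iff (by positivity) (Real.rpow_pos_of_pos hy0 b), Real.log_rpow hy0]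
    exact hlm
  have hL0 : 0 < b * Real.log y := by positivity
  have h6 := blocks x₀ hx₀ hb (y ^ a) hx (b * Real.log y) m hlm hL0
  have h7 : ∑ p ∈ PQ (y ^ a) (3 ^ m * y ^ a), 1 / (p : ℝ) ≤
      ∑ p ∈ PQ (y ^ a) (y ^ b), 1 / (p : ℝ) := by
    refine Finset.sum_le_sum_of_subset_of_nonneg ?_ fun p _ _ => by positivity
    unfold PQ
    exact Finset.filter_subset_filter _ (Finset.Ioc_subset_Ioc_right (Nat.floor_mono hle))
  have h8 : (b - a) / (12 * b) ≤ (m : ℝ) / (6 * (b * Real.log y)) := by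
    rw [div_le_div_iff₀ (by positivity) (by positivity)]
    nlinarith only [mul_le_mul_of_nonneg_left hm2 (show (0 : ℝ) ≤ 12 * b by positivity)]
  linarith only [h6, h7, h8]

end Pool.Agent.H48.VU
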